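import Pool.Agent.Y472.A.Defs

set_option autoImplicit false
set_option linter.all false

/-! CB3-HV: highest weight vectors of two strands and eigenvalues. -/

namespace Pool.Agent.Y228.CB

open Finset
open Pool.Agent.Y472

theorem w_ne {N : ℕ} {w : ℂ} (h : Rt N w) : w ≠ 0 := by
  intro h0
  have := h.nrm
  rw [h0, norm_zero] at this
  exact zero_ne_one this

theorem lb_ne {N : ℕ} {w l : ℂ} (h : Rt N w) (hl : Gl l) (k : ℤ) : lb w l k ≠ 0 := by
  intro h0
  unfold lb cb at h0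
  have hz : l * w ^ k ≠ 0 := mul_ne_zero hl.ne (zpow_ne_zero _ (w_ne h))
  have h1 : (l * w ^ k) * (l * w ^ k) = 1 := by
    have h2 : l * w ^ k = (l * w ^ k)⁻¹ := sub_eq_zero.1 h0
    calc (l * w ^ k) * (l * w ^ k) = (l * w ^ k) * (l * w ^ k)⁻¹ := by rw [← h2]
      _ = 1 := mul_inv_cancel₀ hz
  have h2 : ‖l * w ^ k‖ * ‖l * w ^ k‖ = 1 := by rw [← norm_mul, h1, norm_one]
  have h3 : ‖l * w ^ k‖ = 1 := by
    have := norm_nonneg (l * w ^ k)
    nlinarith
  rw [norm_mul, norm_zpow, h.nrm, one_zpow, mul_one] at h3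
  exact hl.nrm h3

theorem KK_ne {w l : ℂ} (hw : w ≠ 0) (hl : l ≠ 0) (a : ℕ) : KK w l a ≠ 0 :=
  mul_ne_zero hl (zpow_ne_zero _ hw)

theorem qi_zero (w : ℂ) : qi w 0 = 0 := by simp [qi, cb]

/-- the one-strand identity -/
theorem one_strand {w l : ℂ} (hw : w ≠ 0) (hl : l ≠ 0) (a : ℤ) :
    qi w (a + 1) * lb w l (-1 - a) - qi w a * lb w l (-a) =
      (w - w⁻¹) * (l * w ^ (-1 - 2 * a) - (l * w ^ (-1 - 2 * a))⁻¹) := by
  unfold qi lb cb
  have e1 : w ^ (a + 1) = w ^ a * w := zpow_add_one₀ hw a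
  have e2 : w ^ (-1 - a) = w⁻¹ * (w ^ a)⁻¹ := by
    rw [sub_eq_add_neg, zpow_add₀ hw, zpow_neg, zpow_neg, zpow_one]
  have e3 : w ^ (-a) = (w ^ a)⁻¹ := zpow_neg _ _
  have e4 : w ^ (-1 - 2 * a) = w⁻¹ * ((w ^ a)⁻¹ * (w ^ a)⁻¹) := by
    rw [sub_eq_add_neg, zpow_add₀ hw, zpow_neg, zpow_neg, zpow_one, two_mul, zpow_add₀ hw, mul_inv]
  rw [e1, e2, e3, e4]
  have hA : w ^ a ≠ 0 := zpow_ne_zero _ hw
  generalize w ^ a = A at *
  simp only [mul_inv, inv_inv]
  field_simp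
  ring_nf

/-- the commutator of `E2` and `F2` -/
theorem comm {w l : ℂ} (hw : w ≠ 0) (hl : l ≠ 0) (y : V2) (a b : ℕ) :
    E2 w l (F2 w l y) a b = F2 w l (E2 w l y) a b +
      (w - w⁻¹) * (KK w l a * KK w l b - (KK w l a * KK w l b)⁻¹) * y a b := by
  have hKa := KK_ne hw hl a
  have hKb := KK_ne hw hl b
  have eE : ∀ (x : V2) (a b : ℕ), E2 w l x a b =
      lb w l (-1 - a) * KK w l b * x (a + 1) b + lb w l (-1 - b) * x a (b + 1) := fun _ _ _ => rfl
  have eF : ∀ (x : V2) (a b : ℕ), F2 w l x a b =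
      qi w a * x (a - 1) b + (KK w l a)⁻¹ * qi w b * x a (b - 1) := fun _ _ _ => rfl
  -- `y a b` terms
  have hA := one_strand hw hl (a : ℤ)
  have hB := one_strand hw hl (b : ℤ)
  have hF1 : qi w a * E2 w l y (a - 1) b =
      qi w a * (lb w l (-(a : ℤ)) * KK w l b * y a b + lb w l (-1 - b) * y (a - 1) (b + 1)) := by
    rcases Nat.eq_zero_or_pos a with h0 | h0
    · subst h0
      rw [Nat.cast_zero, qi_zero, zero_mul, zero_mul]
    · obtain ⟨c, rfl⟩ : ∃ c, a = c + 1 := ⟨a - 1, by omega⟩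
      rw [Nat.add_sub_cancel, eE]
      congr 4
      push_cast
      ring
  have hF2 : qi w b * E2 w l y a (b - 1) =
      qi w b * (lb w l (-1 - a) * (KK w l b * w ^ (2 : ℤ)) * y (a + 1) (b - 1) +
        lb w l (-(b : ℤ)) * y a b) := by
    rcases Nat.eq_zero_or_pos b with h0 | h0
    · subst h0
      rw [Nat.cast_zero, qi_zero, zero_mul, zero_mul]
    · obtain ⟨c, rfl⟩ : ∃ c, b = c + 1 := ⟨b - 1, by omega⟩
      rw [Nat.add_sub_cancel, eE]
      have e1 : KK w l c = KK w l (c + 1) * w ^ (2 : ℤ) := by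
        unfold KK
        rw [mul_assoc, ← zpow_add₀ hw]
        congr 2
        push_cast
        ring
      rw [e1]
      have e2 : (-1 : ℤ) - (c : ℤ) = -((c + 1 : ℕ) : ℤ) := by push_cast; ring
      rw [e2]
  have hK1 : (KK w l (a + 1))⁻¹ = (KK w l a)⁻¹ * w ^ (2 : ℤ) := by
    unfold KK
    rw [mul_inv, mul_inv, mul_assoc]
    congr 1
    rw [← zpow_neg, ← zpow_neg, ← zpow_add₀ hw]
    congr 1
    push_cast
    ring
  have hA' : qi w ((a : ℤ) + 1) * lb w l (-1 - a) - qi w a * lb w l (-a) =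
      (w - w⁻¹) * (KK w l a - (KK w l a)⁻¹) := hA
  have hB' : qi w ((b : ℤ) + 1) * lb w l (-1 - b) - qi w b * lb w l (-b) =
      (w - w⁻¹) * (KK w l b - (KK w l b)⁻¹) := hB
  have hL1 : F2 w l y (a + 1) b = qi w ((a : ℤ) + 1) * y a b +
      (KK w l a)⁻¹ * w ^ (2 : ℤ) * qi w b * y (a + 1) (b - 1) := by
    rw [eF, hK1, Nat.add_sub_cancel]
    push_cast
    ring
  have hL2 : F2 w l y a (b + 1) = qi w a * y (a - 1) (b + 1) +
      (KK w l a)⁻¹ * qi w ((b : ℤ) + 1) * y a b := by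
    rw [eF, Nat.add_sub_cancel]
    push_cast
    ring
  rw [eE, eF (E2 w l y) a b, hL1, hL2, mul_inv]
  linear_combination -hF1 - (KK w l a)⁻¹ * hF2 + KK w l b * y a b * hA' + (KK w l a)⁻¹ * y a b * hB'


/-! ### highest weight vectors -/

/-- `x` is homogeneous of degree `D` -/
def Hom (D : ℕ) (x : V2) : Prop := ∀ a b : ℕ, a + b ≠ D → x a b = 0

theorem Hom.F2 {w l : ℂ} {D : ℕ} {x : V2} (h : Hom D x) : Hom (D + 1) (F2 w l x) := by
  intro a b hab
  show qi w a * x (a - 1) b + (KK w l a)⁻¹ * qi w b * x a (b - 1) = 0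
  have h1 : qi w a * x (a - 1) b = 0 := by
    rcases Nat.eq_zero_or_pos a with h0 | h0
    · subst h0; rw [Nat.cast_zero, qi_zero, zero_mul]
    · rw [h _ _ (by omega), mul_zero]
  have h2 : qi w b * x a (b - 1) = 0 := by
    rcases Nat.eq_zero_or_pos b with h0 | h0
    · subst h0; rw [Nat.cast_zero, qi_zero, zero_mul]
    · rw [h _ _ (by omega), mul_zero]
  rw [h1, mul_assoc, h2, mul_zero, zero_add]

theorem hv_hom (w l : ℂ) (j : ℕ) : Hom j (hv w l j) := fun a b h => if_neg h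

theorem gv_hom (w l : ℂ) (j k : ℕ) : Hom (j + k) (gv w l j k) := by
  induction k with
  | zero => exact hv_hom w l j
  | succ k ih =>
    have : gv w l j (k + 1) = F2 w l (gv w l j k) := by
      unfold gv; rw [Function.iterate_succ_apply']
    rw [this]
    exact ih.F2

theorem gv_succ (w l : ℂ) (j k : ℕ) : gv w l j (k + 1) = F2 w l (gv w l j k) := by
  unfold gv; rw [Function.iterate_succ_apply']

theorem hv_succ (w l : ℂ) (j a b : ℕ) (h : a + 1 + b = j) :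
    hv w l j (a + 1) b = hv w l j a (b + 1) *
      (-lb w l (-((b : ℤ) + 1)) / (lb w l (-1 - a) * KK w l b)) := by
  unfold hv
  rw [if_pos h, if_pos (by omega), prod_range_succ]
  have e1 : (j : ℤ) - a = b + 1 := by omega
  have e2 : j - 1 - a = b := by omega
  rw [e1, e2]

theorem E2_hv {N : ℕ} {w l : ℂ} (h : Rt N w) (hl : Gl l) (j : ℕ) : E2 w l (hv w l j) = 0 := by
  funext a b
  show lb w l (-1 - a) * KK w l b * hv w l j (a + 1) b + lb w l (-1 - b) * hv w l j a (b + 1) = 0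
  by_cases hab : a + 1 + b = j
  · rw [hv_succ w l j a b hab]
    have h1 := lb_ne h hl (-1 - a)
    have h2 := KK_ne (w_ne h) hl.ne b
    have e : (-1 : ℤ) - b = -((b : ℤ) + 1) := by ring
    rw [e]
    field_simp
    ring
  · rw [hv_hom w l j _ _ hab, hv_hom w l j a (b + 1) (by omega), mul_zero, mul_zero, add_zero]

/-- uniqueness of highest weight vectors, from the first column -/
theorem uniq1 {N : ℕ} {w l : ℂ} (h : Rt N w) (hl : Gl l) {x : V2} (hx : E2 w l x = 0)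
    (h0 : ∀ b, x 0 b = 0) : x = 0 := by
  have key : ∀ a b : ℕ, x a b = 0 := by
    intro a
    induction a with
    | zero => exact h0
    | succ a ih =>
      intro b
      have h1 := congrFun (congrFun hx a) b
      have h2 : lb w l (-1 - a) * KK w l b * x (a + 1) b + lb w l (-1 - b) * x a (b + 1) = 0 := h1
      rw [ih, mul_zero, add_zero] at h2
      exact (mul_eq_zero.1 h2).resolve_left (mul_ne_zero (lb_ne h hl _) (KK_ne (w_ne h) hl.ne b))
  funext a b
  exact key a b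

theorem uniq2 {N : ℕ} {w l : ℂ} (h : Rt N w) (hl : Gl l) {x : V2} (hx : E2 w l x = 0)
    (h0 : ∀ a, x a 0 = 0) : x = 0 := by
  have key : ∀ b a : ℕ, x a b = 0 := by
    intro b
    induction b with
    | zero => exact h0
    | succ b ih =>
      intro a
      have h1 := congrFun (congrFun hx a) b
      have h2 : lb w l (-1 - a) * KK w l b * x (a + 1) b + lb w l (-1 - b) * x a (b + 1) = 0 := h1
      rw [ih, mul_zero, zero_add] at h2
      exact (mul_eq_zero.1 h2).resolve_left (lb_ne h hl _)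
  funext a b
  exact key b a

/-- the last coefficient -/
theorem hv_last {N : ℕ} {w l : ℂ} (h : Rt N w) (hl : Gl l) (j : ℕ) :
    hv w l j j 0 = (-1) ^ j * (l ^ (-(j : ℤ)) * w ^ (j * j)) := by
  have hw := w_ne h
  unfold hv
  rw [if_pos (Nat.add_zero j)]
  have e1 : ∏ t ∈ range j, (-lb w l (-((j : ℤ) - t)) / (lb w l (-1 - t) * KK w l (j - 1 - t))) =
      (-1) ^ j * ((∏ t ∈ range j, lb w l (-((j : ℤ) - t))) / ((∏ t ∈ range j, lb w l (-1 - t)) *
        ∏ t ∈ range j, KK w l (j - 1 - t))) := by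
    rw [← prod_mul_distrib, ← prod_div_distrib]
    conv_rhs => rw [← card_range j, ← prod_const, card_range]
    rw [← prod_mul_distrib]
    refine prod_congr rfl fun t _ => ?_
    ring
  have e2 : ∏ t ∈ range j, lb w l (-((j : ℤ) - t)) = ∏ t ∈ range j, lb w l (-1 - t) := by
    rw [← prod_range_reflect]
    refine prod_congr rfl fun t ht => ?_
    have := mem_range.1 ht
    congr 1
    push_cast [Nat.cast_sub (show 1 ≤ j by omega), Nat.cast_sub (show t ≤ j - 1 by omega)]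
    ring
  have e3 : ∏ t ∈ range j, KK w l (j - 1 - t) = l ^ (j : ℤ) * (w ^ (j * j))⁻¹ := by
    rw [prod_range_reflect (fun t => KK w l t) j]
    clear e1 e2
    induction j with
    | zero => simp
    | succ j ih =>
      rw [prod_range_succ, ih]
      unfold KK
      have e4 : w ^ ((-1 : ℤ) - 2 * j) = (w ^ (2 * j + 1))⁻¹ := by
        rw [← zpow_natCast, ← zpow_neg]
        congr 1
        push_cast
        ring
      have e5 : (j + 1) * (j + 1) = j * j + (2 * j + 1) := by ring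
      rw [e4, e5, pow_add, mul_inv, Nat.cast_add, Nat.cast_one, zpow_add_one₀ hl.ne]
      ring
  have hP : ∏ t ∈ range j, lb w l (-1 - t) ≠ 0 := prod_ne_zero_iff.2 fun t _ => lb_ne h hl _
  rw [e1, e2, e3, zpow_neg]
  have h1 : l ^ (j : ℤ) ≠ 0 := zpow_ne_zero _ hl.ne
  have h2 : w ^ (j * j) ≠ 0 := pow_ne_zero _ hw
  field_simp

theorem se_ne {N : ℕ} {w l : ℂ} (h : Rt N w) (hl : Gl l) (j : ℕ) : se w l j ≠ 0 := by
  unfold se
  exact mul_ne_zero (mul_ne_zero (pow_ne_zero _ (by norm_num)) (zpow_ne_zero _ hl.ne))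
    (pow_ne_zero _ (w_ne h))

theorem sg_hv (s1 : S_SIG1) {N : ℕ} {w l : ℂ} (h : Rt N w) (hl : Gl l) (j : ℕ) :
    sg w l (hv w l j) = se w l j • hv w l j := by
  have hw := w_ne h
  have h1 : sg w l (hv w l j) - se w l j • hv w l j = 0 := by
    apply uniq1 h hl
    · rw [map_sub, map_smul, ← (s1 w l hw hl.ne).1, E2_hv h hl, map_zero, smul_zero, sub_zero]
    · intro b
      have e1 : sg w l (hv w l j) 0 b = l ^ (-(1 + (b : ℤ))) * w ^ (1 + b) * hv w l j b 0 := by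
        show l ^ (-(1 + ((0 : ℕ) : ℤ) + b)) * w ^ (1 + ((0 : ℕ) : ℤ) + b + 2 * ((0 : ℕ) : ℤ) * b) *
          ∑ n ∈ range (0 + 1), w ^ (n * (n - 1) / 2) * qb w 0 n *
            (∏ t ∈ range n, lb w l (-(b : ℤ) - 1 - t)) * hv w l j (b + n) (0 - n) = _
        rw [zero_add, sum_range_one]
        have e2 : (1 : ℤ) + ((0 : ℕ) : ℤ) + b + 2 * ((0 : ℕ) : ℤ) * b = ((1 + b : ℕ) : ℤ) := by
          push_cast; ring
        rw [e2, zpow_natCast]
        simp [qb]
      show sg w l (hv w l j) 0 b - se w l j * hv w l j 0 b = 0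
      rw [e1]
      by_cases hb : b = j
      · subst hb
        rw [hv_last h hl]
        have e3 : hv w l b 0 b = 1 := by unfold hv; rw [if_pos (Nat.zero_add b)]; simp
        rw [e3]
        unfold se
        have e4 : l ^ (-(1 + (b : ℤ))) * l ^ (-(b : ℤ)) = l ^ (-1 - 2 * (b : ℤ)) := by
          rw [← zpow_add₀ hl.ne]; congr 1; ring
        have e5 : w ^ (1 + b) * w ^ (b * b) = w ^ (b * b + b + 1) := by
          rw [← pow_add]; congr 1; ring
        rw [← e4, ← e5]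
        ring
      · rw [hv_hom w l j b 0 (by omega), hv_hom w l j 0 b (by omega)]
        ring
  exact sub_eq_zero.1 h1

theorem sn_hv (s2 : S_SIG2) {N : ℕ} {w l : ℂ} (h : Rt N w) (hl : Gl l) (j : ℕ) :
    sn w l (hv w l j) = (se w l j)⁻¹ • hv w l j := by
  have hw := w_ne h
  have h1 : sn w l (hv w l j) - (se w l j)⁻¹ • hv w l j = 0 := by
    apply uniq2 h hl
    · rw [map_sub, map_smul, ← (s2 w l hw hl.ne).1, E2_hv h hl, map_zero, smul_zero, sub_zero]
    · intro a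
      have e1 : sn w l (hv w l j) a 0 = l ^ (1 + (a : ℤ)) * w ^ (-(1 + (a : ℤ))) * hv w l j 0 a := by
        show l ^ (1 + (a : ℤ) + ((0 : ℕ) : ℤ)) * w ^ (-(1 + (a : ℤ) + ((0 : ℕ) : ℤ))) *
          ∑ n ∈ range (0 + 1), (-1) ^ n *
            w ^ (-((n * (n - 1) / 2 : ℕ) : ℤ) - 2 * (((0 : ℕ) : ℤ) - n) * ((a : ℤ) + n)) * qb w 0 n *
            (∏ t ∈ range n, lb w l (-(a : ℤ) - 1 - t)) * hv w l j (0 - n) (a + n) = _
        rw [zero_add, sum_range_one]
        simp [qb]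
      show sn w l (hv w l j) a 0 - (se w l j)⁻¹ * hv w l j a 0 = 0
      rw [e1]
      by_cases hb : a = j
      · subst hb
        rw [hv_last h hl]
        have e3 : hv w l a 0 a = 1 := by unfold hv; rw [if_pos (Nat.zero_add a)]; simp
        rw [e3]
        have e4 : l ^ (-(1 + (a : ℤ))) * l ^ (-(a : ℤ)) = l ^ (-1 - 2 * (a : ℤ)) := by
          rw [← zpow_add₀ hl.ne]; congr 1; ring
        have e5 : w ^ (1 + a) * w ^ (a * a) = w ^ (a * a + a + 1) := by
          rw [← pow_add]; congr 1; ring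
        have e6 : w ^ (-(1 + (a : ℤ))) = (w ^ (1 + a))⁻¹ := by
          rw [zpow_neg]; congr 1
        have e7 : l ^ (-(1 + (a : ℤ))) = (l ^ (1 + (a : ℤ)))⁻¹ := zpow_neg _ _
        have hse := se_ne h hl a
        rw [sub_eq_zero, eq_inv_mul_iff_mul_eq₀ hse]
        unfold se
        rw [← e4, ← e5, e6, e7]
        have n1 : l ^ (1 + (a : ℤ)) ≠ 0 := zpow_ne_zero _ hl.ne
        have n2 : w ^ (1 + a) ≠ 0 := pow_ne_zero _ hw
        field_simp
      · rw [hv_hom w l j a 0 (by omega), hv_hom w l j 0 a (by omega)]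
        ring
  exact sub_eq_zero.1 h1

/-- the weight of `e_a ⊗ e_b` -/
theorem KK_mul {w l : ℂ} (hw : w ≠ 0) (hl : l ≠ 0) {a b D : ℕ} (h : a + b = D) :
    KK w l a * KK w l b = l ^ 2 * w ^ (-2 - 2 * (D : ℤ)) := by
  unfold KK
  have e : w ^ (-1 - 2 * (a : ℤ)) * w ^ (-1 - 2 * (b : ℤ)) = w ^ (-2 - 2 * (D : ℤ)) := by
    rw [← zpow_add₀ hw]
    congr 1
    rw [← h]
    push_cast
    ring
  rw [← e]
  ring

theorem uu_eq {w l : ℂ} (hw : w ≠ 0) (hl : l ≠ 0) {a b j : ℕ} (h : a + b = j) :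
    w * KK w l a * KK w l b + (w * KK w l a * KK w l b)⁻¹ = uu w l j := by
  have e : w * KK w l a * KK w l b = l ^ 2 * w ^ (-1 - 2 * (j : ℤ)) := by
    rw [mul_assoc, KK_mul hw hl h]
    have : w ^ (-1 - 2 * (j : ℤ)) = w * w ^ (-2 - 2 * (j : ℤ)) := by
      rw [← zpow_one_add₀ hw]; congr 1; ring
    rw [this]
    ring
  rw [e]
  rfl

theorem cas_hv {N : ℕ} {w l : ℂ} (h : Rt N w) (hl : Gl l) (j : ℕ) :
    cas w l (hv w l j) = uu w l j • hv w l j := by
  funext a b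
  show F2 w l (E2 w l (hv w l j)) a b +
    (w * KK w l a * KK w l b + (w * KK w l a * KK w l b)⁻¹) * hv w l j a b = uu w l j * hv w l j a b
  rw [E2_hv h hl, map_zero]
  by_cases hab : a + b = j
  · rw [uu_eq (w_ne h) hl.ne hab]
    show (0 : ℂ) + _ = _
    rw [zero_add]
  · rw [hv_hom w l j a b hab, mul_zero, mul_zero]
    show (0 : ℂ) + 0 = 0
    rw [add_zero]

/-- an operator which commutes with `F2` acts on the family by the same scalar -/
theorem equiv_gv {w l : ℂ} {A : V2 →ₗ[ℂ] V2} (hA : ∀ x, A (F2 w l x) = F2 w l (A x)) {c : ℂ} {j : ℕ}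
    (h0 : A (hv w l j) = c • hv w l j) (k : ℕ) : A (gv w l j k) = c • gv w l j k := by
  induction k with
  | zero => exact h0
  | succ k ih => rw [gv_succ, hA, ih, map_smul]

/-- scalar identity -/
theorem scal {w y : ℂ} (hw : w ≠ 0) (hy : y ≠ 0) (k : ℤ) :
    y + y⁻¹ - (y * w ^ (-2 * k) + (y * w ^ (-2 * k))⁻¹) +
      (w - w⁻¹) * (y * w ^ (-1 - 2 * k) - (y * w ^ (-1 - 2 * k))⁻¹) =
    qi w (k + 1) * cb (y * w ^ (-(k + 1))) := by
  unfold qi cb
  have e1 : w ^ (-2 * k) = (w ^ k)⁻¹ * (w ^ k)⁻¹ := by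
    rw [show -2 * k = -k + -k by ring, zpow_add₀ hw, zpow_neg]
  have e2 : w ^ (-1 - 2 * k) = w⁻¹ * ((w ^ k)⁻¹ * (w ^ k)⁻¹) := by
    rw [show -1 - 2 * k = -1 + (-k + -k) by ring, zpow_add₀ hw, zpow_add₀ hw, zpow_neg, zpow_neg,
      zpow_one]
  have e3 : w ^ (k + 1) = w ^ k * w := zpow_add_one₀ hw k
  have e4 : w ^ (-(k + 1)) = (w ^ k)⁻¹ * w⁻¹ := by
    rw [zpow_neg, e3, mul_inv]
  rw [e1, e2, e3, e4]
  have hA : w ^ k ≠ 0 := zpow_ne_zero _ hw
  generalize w ^ k = A at *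
  simp only [mul_inv, inv_inv]
  field_simp
  ring

theorem E2_gv (s3 : S_SIGT) {N : ℕ} {w l : ℂ} (h : Rt N w) (hl : Gl l) (j k : ℕ) :
    E2 w l (gv w l j (k + 1)) =
      (qi w (k + 1) * cb (l ^ 2 * w ^ (-1 - 2 * (j : ℤ) - (k + 1)))) • gv w l j k := by
  have hw := w_ne h
  have hc : cas w l (gv w l j k) = uu w l j • gv w l j k :=
    equiv_gv (s3 N w l h hl.ne).2.2.2.2.2.2.2.2.2 (cas_hv h hl j) k
  funext a b
  rw [gv_succ, comm hw hl.ne]
  have h1 := congrFun (congrFun hc a) b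
  have h2 : F2 w l (E2 w l (gv w l j k)) a b +
    (w * KK w l a * KK w l b + (w * KK w l a * KK w l b)⁻¹) * gv w l j k a b =
      uu w l j * gv w l j k a b := h1
  show F2 w l (E2 w l (gv w l j k)) a b +
    (w - w⁻¹) * (KK w l a * KK w l b - (KK w l a * KK w l b)⁻¹) * gv w l j k a b =
      (qi w (k + 1) * cb (l ^ 2 * w ^ (-1 - 2 * (j : ℤ) - (k + 1)))) * gv w l j k a b
  by_cases hab : a + b = j + k
  · have hy : l ^ 2 * w ^ (-1 - 2 * (j : ℤ)) ≠ 0 :=
      mul_ne_zero (pow_ne_zero _ hl.ne) (zpow_ne_zero _ hw)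
    have e0 := scal hw hy (k : ℤ)
    have e1 : l ^ 2 * w ^ (-1 - 2 * (j : ℤ)) * w ^ (-((k : ℤ) + 1)) =
        l ^ 2 * w ^ (-1 - 2 * (j : ℤ) - (k + 1)) := by
      rw [mul_assoc, ← zpow_add₀ hw]; congr 2
    have e2 : l ^ 2 * w ^ (-1 - 2 * (j : ℤ)) * w ^ (-1 - 2 * (k : ℤ)) = KK w l a * KK w l b := by
      rw [KK_mul hw hl.ne hab, mul_assoc, ← zpow_add₀ hw]; congr 2; push_cast; ring
    have e3 : l ^ 2 * w ^ (-1 - 2 * (j : ℤ)) * w ^ (-2 * (k : ℤ)) = w * KK w l a * KK w l b := by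
      rw [mul_assoc w, ← e2]
      have : w ^ (-2 * (k : ℤ)) = w * w ^ (-1 - 2 * (k : ℤ)) := by
        rw [← zpow_one_add₀ hw]; congr 1; ring
      rw [this]
      ring
    rw [e1, e2, e3] at e0
    have e4 : l ^ 2 * w ^ (-1 - 2 * (j : ℤ)) + (l ^ 2 * w ^ (-1 - 2 * (j : ℤ)))⁻¹ = uu w l j := rfl
    rw [e4] at e0
    linear_combination h2 + gv w l j k a b * e0
  · rw [gv_hom w l j k a b hab] at h2 ⊢
    linear_combination h2

theorem hvt : S_HV := by
  intro s1 s2 s3 N w l h hl j hj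
  refine ⟨?_, E2_hv h hl j, fun k => ⟨E2_gv s3 h hl j k, ?_, ?_, ?_⟩⟩
  · intro a b hab
    exact hv_hom w l j a b (by omega)
  · exact equiv_gv (s3 N w l h hl.ne).2.2.2.2.2.2.2.2.2 (cas_hv h hl j) k
  · exact equiv_gv (s1 w l (w_ne h) hl.ne).2 (sg_hv s1 h hl j) k
  · exact equiv_gv (s2 w l (w_ne h) hl.ne).2 (sn_hv s2 h hl j) k

end Pool.Agent.Y228.CB
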